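import Pool.Agent.H987.Z.StC
import Pool.Agent.H987.Z.StD

/-! Subtask Z-E0 of project Z of helper987: the free Green function along a homomorphism. -/

set_option autoImplicit false

open scoped BigOperators InnerProductSpace Topology
open Filter MeasureTheory

namespace Pool.Agent.H650.Z987

open Pool.Agent.H987.Z
open Pool.Agent.Y662.TR (LL Cf Mw dv hu ll_ext Cf_adj Cf_adj_ne dv_apply sub_coord smul_coord)
open Pool.Agent.TH369.AN (Rz)

set_option linter.unusedSectionVars false

section

variable {d : ℕ} {G : Type} [Group G]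

theorem ra_mul : RA (fun s : G => Equiv.mulRight s) where
  one := fun x => by simp
  mul := fun s t x => by simp [mul_assoc]

/-- the generators -/
theorem inv_gen (i : Fin d) : (Multiplicative.ofAdd (Pi.single i (1 : ℤ)) :
    Multiplicative (Fin d → ℤ))⁻¹ = Multiplicative.ofAdd (Pi.single i (-1)) := by
  rw [← ofAdd_neg, ← Pi.single_neg]

theorem inv_gen' (i : Fin d) : (Multiplicative.ofAdd (Pi.single i (-1 : ℤ)) :
    Multiplicative (Fin d → ℤ))⁻¹ = Multiplicative.ofAdd (Pi.single i 1) := by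
  rw [← inv_gen, inv_inv]

open Classical in
theorem b0_eq (ι : Multiplicative (Fin d → ℤ) →* G) (x : G) :
    b0 ι x = (2 * d) * (if x = 1 then 1 else 0) - ∑ i : Fin d,
    ((if x = ι (Multiplicative.ofAdd (Pi.single i 1)) then 1 else 0) +
      (if x = ι (Multiplicative.ofAdd (Pi.single i (-1))) then 1 else 0)) := by
  unfold b0
  congr

theorem b0_sy (ι : Multiplicative (Fin d → ℤ) →* G) (x : G) : b0 ι x⁻¹ = b0 ι x := by
  classical
  rw [b0_eq, b0_eq]
  congr 1
  · simp [inv_eq_one]
  · refine Finset.sum_congr rfl fun i _ => ?_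
    rw [add_comm]
    congr 1
    · congr 1
      rw [inv_eq_iff_eq_inv, ← map_inv, inv_gen']
    · congr 1
      rw [inv_eq_iff_eq_inv, ← map_inv, inv_gen]

open Classical in
theorem hs_one (a : G) (f : G → ℝ) : HasSum (fun s => (if s = a then (1 : ℝ) else 0) * f s) (f a) := by
  have h := hasSum_single (f := fun s => (if s = a then (1 : ℝ) else 0) * f s) a (by
    intro b hb
    simp [hb])
  simpa using h

open Classical in
theorem hs_oneC (a : G) (f : G → ℂ) : HasSum (fun s => (if s = a then (1 : ℂ) else 0) * f s) (f a) := by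
  have h := hasSum_single (f := fun s => (if s = a then (1 : ℂ) else 0) * f s) a (by
    intro b hb
    simp [hb])
  simpa using h

open Classical in
theorem maj (ι : Multiplicative (Fin d → ℤ) →* G) :
    HasSum (fun x : G => (2 * d) * ((if x = 1 then (1 : ℝ) else 0) * 1) + ∑ i : Fin d,
    ((if x = ι (Multiplicative.ofAdd (Pi.single i 1)) then (1 : ℝ) else 0) * 1 +
      (if x = ι (Multiplicative.ofAdd (Pi.single i (-1))) then (1 : ℝ) else 0) * 1)) (4 * d) := by
  have h1 := (hs_one (1 : G) (fun _ => (1 : ℝ))).mul_left (2 * (d : ℝ))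
  have h2 := hasSum_sum (s := (Finset.univ : Finset (Fin d))) (fun i _ =>
    (hs_one (ι (Multiplicative.ofAdd (Pi.single i 1))) (fun _ => (1 : ℝ))).add
      (hs_one (ι (Multiplicative.ofAdd (Pi.single i (-1)))) (fun _ => (1 : ℝ))))
  have h3 := h1.add h2
  have h4 : (4 * (d : ℝ)) = 2 * d * 1 + ∑ i : Fin d, ((1 : ℝ) + 1) := by
    simp only [Finset.sum_const, Finset.card_univ, Fintype.card_fin, nsmul_eq_mul]
    ring
  rw [h4]
  exact h3

theorem b0_le (ι : Multiplicative (Fin d → ℤ) →* G) (x : G) : by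
    classical
    exact |b0 ι x| ≤ (2 * d) * ((if x = 1 then (1 : ℝ) else 0) * 1) + ∑ i : Fin d,
    ((if x = ι (Multiplicative.ofAdd (Pi.single i 1)) then (1 : ℝ) else 0) * 1 +
      (if x = ι (Multiplicative.ofAdd (Pi.single i (-1))) then (1 : ℝ) else 0) * 1) := by
  classical
  rw [b0_eq]
  refine (abs_sub _ _).trans ?_
  have h0 : ∀ p : Prop, [Decidable p] → (0 : ℝ) ≤ (if p then (1 : ℝ) else 0) := by
    intro p _
    split_ifs <;> norm_num
  rw [abs_of_nonneg (mul_nonneg (by positivity) (h0 _)),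
    abs_of_nonneg (Finset.sum_nonneg fun i _ => add_nonneg (h0 _) (h0 _))]
  simp only [mul_one]
  exact le_refl _

theorem b0_Sy (ι : Multiplicative (Fin d → ℤ) →* G) : Sy (b0 ι) where
  sm := Summable.of_nonneg_of_le (fun _ => abs_nonneg _) (b0_le ι) (maj ι).summable
  sy := b0_sy ι

theorem b0_N1 (ι : Multiplicative (Fin d → ℤ) →* G) : N1 (b0 ι) ≤ 4 * d := by
  unfold N1
  rw [← (maj ι).tsum_eq]
  exact (b0_Sy ι).sm.tsum_le_tsum (b0_le ι) (maj ι).summable

/-- the action of the free operator -/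
theorem KT_b0 (hc : S_conv) (ι : Multiplicative (Fin d → ℤ) →* G) (u : LL G) (x : G) :
    KT (b0 ι) u x = (2 * d) * u x - ∑ i : Fin d,
      (u (x * ι (Multiplicative.ofAdd (Pi.single i 1))) +
        u (x * ι (Multiplicative.ofAdd (Pi.single i (-1))))) := by
  classical
  have h := ((hc G G (fun s => Equiv.mulRight s) ra_mul (b0 ι) (b0 ι) (b0_Sy ι) (b0_Sy ι)).1 u x).2
  unfold KT
  rw [h]
  have h1 := (hs_oneC (1 : G) (fun s => u (x * s))).mul_left (2 * (d : ℂ))
  have h2 := hasSum_sum (s := (Finset.univ : Finset (Fin d))) (fun i _ =>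
    (hs_oneC (ι (Multiplicative.ofAdd (Pi.single i 1))) (fun s => u (x * s))).add
      (hs_oneC (ι (Multiplicative.ofAdd (Pi.single i (-1)))) (fun s => u (x * s))))
  have h3 := h1.sub h2
  rw [mul_one] at h3
  rw [← h3.tsum_eq]
  refine tsum_congr fun s => ?_
  rw [b0_eq]
  simp only [Equiv.coe_mulRight]
  push_cast
  rw [sub_mul, Finset.sum_mul]
  congr 1
  · split_ifs <;> simp
  · refine Finset.sum_congr rfl fun i _ => ?_
    rw [add_mul]
    congr 1
    · split_ifs <;> simp
    · split_ifs <;> simp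

end

/-- **E0.** -/
theorem free0 (hc : S_conv) : S_free0 := by
  intro d G _ ι hι
  refine ⟨b0_Sy ι, b0_N1 ι, ?_⟩
  intro z hz
  have hz0 : z.im ≠ 0 := hz.ne'
  have sa1 : IsSelfAdjoint (KT (b0 ι)) :=
    (hc G G (fun s => Equiv.mulRight s) ra_mul (b0 ι) (b0 ι) (b0_Sy ι) (b0_Sy ι)).2.2.1.sa
  set id' : Multiplicative (Fin d → ℤ) →* Multiplicative (Fin d → ℤ) := MonoidHom.id _ with hid
  have sa2 : IsSelfAdjoint (KT (b0 id')) :=
    (hc _ _ (fun s => Equiv.mulRight s) ra_mul (b0 id') (b0 id') (b0_Sy id') (b0_Sy id')).2.2.1.sa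
  set u : LL (Multiplicative (Fin d → ℤ)) := Rz (KT (b0 id')) z (dv 1) with hu
  have hu1 := Pool.Agent.TH369.AN.rz_eq (KT (b0 id')) sa2 z hz0 (dv 1)
  rw [← hu] at hu1
  have hue : ∀ y, (2 * d) * u y - ∑ i : Fin d,
      (u (y * (Multiplicative.ofAdd (Pi.single i 1))) +
        u (y * (Multiplicative.ofAdd (Pi.single i (-1))))) - z * u y = dv 1 y := by
    intro y
    have h := congrArg (fun v : LL (Multiplicative (Fin d → ℤ)) => v y) hu1
    simp only [sub_coord, smul_coord] at h
    rw [KT_b0 hc] at h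
    exact h
  set w : LL G := ContinuousLinearMap.adjoint (Cf ι hι) u with hw
  have hw1 : ∀ y, w (ι y) = u y := fun y => Cf_adj ι hι u y
  have hw0 : ∀ x, (∀ y, ι y ≠ x) → w x = 0 := fun x hx => Cf_adj_ne ι hι u x hx
  have hkey : KT (b0 ι) w - z • w = dv 1 := by
    apply ll_ext
    intro x
    rw [sub_coord, smul_coord, KT_b0 hc]
    by_cases hx : ∃ y, ι y = x
    · obtain ⟨y, rfl⟩ := hx
      simp only [← map_mul, hw1]
      rw [hue y, dv_apply, dv_apply]
      have : (ι y = 1) ↔ (y = 1) := by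
        constructor
        · intro h
          exact hι (by rw [h, map_one])
        · rintro rfl
          exact map_one ι
      by_cases hy : y = 1
      · rw [if_pos hy, if_pos (this.2 hy)]
      · rw [if_neg hy, if_neg (fun h => hy (this.1 h))]
    · push Not at hx
      have hx' : ∀ g : Multiplicative (Fin d → ℤ), ∀ y, ι y ≠ x * ι g := by
        intro g y hy
        apply hx (y * g⁻¹)
        rw [map_mul, hy, map_inv, mul_assoc, mul_inv_cancel, mul_one]
      rw [hw0 x hx, dv_apply, if_neg]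
      · simp only [hw0 _ (hx' _)]
        simp
      · intro h
        exact hx 1 (by rw [map_one, h])
  have hfin := Pool.Agent.TH369.AN.rz_uniq (KT (b0 ι)) sa1 z hz0 w (dv 1) hkey
  unfold gZ Gr
  rw [← hfin, ← hid, ← hu]
  have := hw1 1
  rw [map_one] at this
  exact this

end Pool.Agent.H650.Z987

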